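import Pool.Agent.H35.SH.Lin

/-!
# Shattered sets of `D` labels give `2 D!` patterns
-/

set_option autoImplicit false

namespace Pool.Agent.H35.SH

open Finset

theorem Sh.erase {T B : ℕ} {S : Finset (Wd T B)} {s : Finset (Fin T × Fin B)} (h : Sh S s)
    {a : Fin T × Fin B} (ha : a ∈ s) : Sh (sub S a) (s.erase a) := by
  intro u hu
  have h1 : insert a u ⊆ s := by
    rw [insert_subset_iff]
    exact ⟨ha, hu.trans (erase_subset _ _)⟩
  obtain ⟨p, hp, h2⟩ := h _ h1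
  refine ⟨p, mem_sub.2 ⟨hp, (h2 a ha).2 (mem_insert_self _ _)⟩, fun b hb => ?_⟩
  rw [mem_erase] at hb
  rw [h2 b hb.2, mem_insert]
  exact or_iff_right hb.1

/-- the words with the label `a` are an interval if the position of `a` is compared first -/
theorem itv_cons {T B : ℕ} (S : Finset (Wd T B)) (a : Fin T × Fin B) (ε : Bool)
    (L : List (Fin T × Bool)) : Itv S (sub S a) (pat (ltL ((a.1, ε) :: L)) S) := by
  intro p hp q hq r hr hpr hrq
  rw [mem_sub] at hp hq ⊢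
  rw [mem_pat] at hpr hrq
  refine ⟨hr, ?_⟩
  have h1 : sg ε (p a.1) < sg ε (r a.1) ∨ (p a.1 = r a.1 ∧ ltL L p r) := hpr.2
  have h2 : sg ε (r a.1) < sg ε (q a.1) ∨ (r a.1 = q a.1 ∧ ltL L r q) := hrq.2
  rw [hp.2] at h1
  rw [hq.2] at h2
  rcases h1 with h1 | h1
  · rcases h2 with h2 | h2
    · exact absurd (h1.trans h2) (lt_irrefl _)
    · exact h2.1
  · exact h1.1.symm

theorem pat_cons {T B : ℕ} (S : Finset (Wd T B)) (a : Fin T × Fin B) (ε : Bool)
    (L : List (Fin T × Bool)) :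
    pat (ltL ((a.1, ε) :: L)) (sub S a) = pat (ltL L) (sub S a) := by
  ext ⟨p, q⟩
  rw [mem_pat, mem_pat]
  refine and_congr_right fun h => ?_
  have h1 : p a.1 = q a.1 := (mem_sub.1 h.1).2.trans (mem_sub.1 h.2).2.symm
  show (sg ε (p a.1) < sg ε (q a.1) ∨ (p a.1 = q a.1 ∧ ltL L p q)) ↔ ltL L p q
  rw [h1]
  constructor
  · rintro (h2 | h2)
    · exact absurd h2 (lt_irrefl _)
    · exact h2.2
  · exact fun h2 => Or.inr ⟨rfl, h2⟩

open Classical in
/-- restriction of a pattern -/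
noncomputable def res {α : Type} (A : Finset α) (P : Finset (α × α)) : Finset (α × α) :=
  P.filter fun x => x.1 ∈ A ∧ x.2 ∈ A

theorem res_pat {α : Type} (r : α → α → Prop) {S A : Finset α} (h : A ⊆ S) :
    res A (pat r S) = pat r A := by
  classical
  ext ⟨p, q⟩
  unfold res
  rw [mem_filter, mem_pat, mem_pat]
  constructor
  · rintro ⟨⟨-, h1⟩, h2, h3⟩
    exact ⟨⟨h2, h3⟩, h1⟩
  · rintro ⟨⟨h2, h3⟩, h1⟩
    exact ⟨⟨⟨h h2, h h3⟩, h1⟩, h2, h3⟩

/-- the side of a word without the label `a` is free -/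
theorem sign_cons {T B : ℕ} (S : Finset (Wd T B)) (a : Fin T × Fin B) (L : List (Fin T × Bool))
    {p q : Wd T B} (hp : p ∈ S) (hq : q ∈ S) (hpa : p a.1 ≠ a.2) (hqa : q a.1 = a.2) (b : Bool) :
    ∃ ε : Bool, ((p, q) ∈ pat (ltL ((a.1, ε) :: L)) S ↔ b = true) := by
  have h0 : ∀ ε : Bool, (p, q) ∈ pat (ltL ((a.1, ε) :: L)) S ↔ sg ε (p a.1) < sg ε a.2 := by
    intro ε
    rw [mem_pat, and_iff_right ⟨hp, hq⟩]
    show (sg ε (p a.1) < sg ε (q a.1) ∨ (p a.1 = q a.1 ∧ ltL L p q)) ↔ _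
    rw [hqa]
    constructor
    · rintro (h1 | h1)
      · exact h1
      · exact absurd h1.1 hpa
    · exact Or.inl
  have h1 : sg true (p a.1) = ((p a.1 : Fin B) : ℤ) := if_pos rfl
  have h2 : sg true a.2 = (a.2 : ℤ) := if_pos rfl
  have h3 : sg false (p a.1) = -((p a.1 : Fin B) : ℤ) := if_neg (by decide)
  have h4 : sg false a.2 = -(a.2 : ℤ) := if_neg (by decide)
  have hne : ((p a.1 : Fin B) : ℤ) ≠ (a.2 : ℤ) := fun h => hpa (Fin.ext (by exact_mod_cast h))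
  rcases lt_or_gt_of_ne hne with h5 | h5
  · cases b
    · refine ⟨false, ?_⟩
      rw [h0, h3, h4]
      constructor
      · intro h6
        exfalso
        linarith
      · intro h6
        exact absurd h6 (by decide)
    · refine ⟨true, ?_⟩
      rw [h0, h1, h2]
      exact ⟨fun _ => rfl, fun _ => h5⟩
  · cases b
    · refine ⟨true, ?_⟩
      rw [h0, h1, h2]
      constructor
      · intro h6
        exfalso
        linarith
      · intro h6
        exact absurd h6 (by decide)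
    · refine ⟨false, ?_⟩
      rw [h0, h3, h4]
      exact ⟨fun _ => rfl, fun _ => by linarith⟩

/-- two intervals with a common point and private points on the same side -/
theorem two_itv {α : Type} {r : α → α → Prop} (hr : Sto r) {S A B : Finset α}
    (hA : Itv S A (pat r S)) (hB : Itv S B (pat r S)) (hAS : A ⊆ S) (hBS : B ⊆ S) {z x y : α}
    (hzA : z ∈ A) (hzB : z ∈ B) (hx : x ∈ A) (hx' : x ∉ B) (hy : y ∈ B) (hy' : y ∉ A) :
    ¬ (r x z ∧ r y z) ∧ ¬ (r z x ∧ r z y) := by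
  have hne : x ≠ y := fun h => hx' (h ▸ hy)
  have hm : ∀ p q, p ∈ S → q ∈ S → r p q → (p, q) ∈ pat r S := fun p q h1 h2 h3 =>
    mem_pat.2 ⟨⟨h1, h2⟩, h3⟩
  refine ⟨fun h => ?_, fun h => ?_⟩
  · rcases hr.tri x y hne with h1 | h1
    · exact hy' (hA x hx z hzA y (hBS hy) (hm _ _ (hAS hx) (hBS hy) h1)
        (hm _ _ (hBS hy) (hAS hzA) h.2))
    · exact hx' (hB y hy z hzB x (hAS hx) (hm _ _ (hBS hy) (hAS hx) h1)
        (hm _ _ (hAS hx) (hBS hzB) h.1))
  · rcases hr.tri x y hne with h1 | h1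
    · exact hx' (hB z hzB y hy x (hAS hx) (hm _ _ (hBS hzB) (hAS hx) h.1)
        (hm _ _ (hAS hx) (hBS hy) h1))
    · exact hy' (hA z hzA x hx y (hBS hy) (hm _ _ (hAS hzA) (hBS hy) h.2)
        (hm _ _ (hBS hy) (hAS hx) h1))

theorem sub_subset {T B : ℕ} (S : Finset (Wd T B)) (a : Fin T × Fin B) : sub S a ⊆ S :=
  fun _ h => (mem_sub.1 h).1

open Classical in
/-- a pattern has at most two of the sets `sub S a` as intervals -/
theorem at_most_two {T B : ℕ} {S : Finset (Wd T B)} {s : Finset (Fin T × Fin B)} (h : Sh S s)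
    (L : List (Fin T × Bool)) :
    (s.filter fun a => Itv S (sub S a) (pat (ltL L) S)).card ≤ 2 := by
  by_contra hcon
  rw [not_le, two_lt_card] at hcon
  obtain ⟨a, ha, b, hb, c, hc, hab, hac, hbc⟩ := hcon
  rw [mem_filter] at ha hb hc
  obtain ⟨z, hz, hz1⟩ := h s (Subset.refl s)
  have hzm : ∀ x ∈ s, z ∈ sub S x := fun x hx => mem_sub.2 ⟨hz, (hz1 x hx).2 hx⟩
  have hpr : ∀ x ∈ s, ∃ p ∈ sub S x, ∀ y ∈ s, y ≠ x → p ∉ sub S y := by
    intro x hx
    obtain ⟨p, hp, hp1⟩ := h {x} (singleton_subset_iff.2 hx)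
    refine ⟨p, mem_sub.2 ⟨hp, (hp1 x hx).2 (mem_singleton_self x)⟩, fun y hy hyx h2 => ?_⟩
    exact hyx (mem_singleton.1 ((hp1 y hy).1 (mem_sub.1 h2).2))
  obtain ⟨pa, hpa, hpa'⟩ := hpr a ha.1
  obtain ⟨pb, hpb, hpb'⟩ := hpr b hb.1
  obtain ⟨pc, hpc, hpc'⟩ := hpr c hc.1
  have hr := sto_ltL (B := B) L
  have hside : ∀ x ∈ s, ∀ p ∈ sub S x, (∃ y ∈ s, y ≠ x ∧ p ∉ sub S y) → ltL L p z ∨ ltL L z p := by
    rintro x hx p hp ⟨y, hy, -, hpy⟩
    exact hr.tri p z fun h3 => hpy (h3 ▸ hzm y hy)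
  have sa := hside a ha.1 pa hpa ⟨b, hb.1, hab.symm, hpa' b hb.1 hab.symm⟩
  have sb := hside b hb.1 pb hpb ⟨a, ha.1, hab, hpb' a ha.1 hab⟩
  have sc := hside c hc.1 pc hpc ⟨a, ha.1, hac, hpc' a ha.1 hac⟩
  have tab := two_itv hr ha.2 hb.2 (sub_subset S a) (sub_subset S b) (hzm a ha.1) (hzm b hb.1) hpa
    (hpa' b hb.1 hab.symm) hpb (hpb' a ha.1 hab)
  have tac := two_itv hr ha.2 hc.2 (sub_subset S a) (sub_subset S c) (hzm a ha.1) (hzm c hc.1) hpa
    (hpa' c hc.1 hac.symm) hpc (hpc' a ha.1 hac)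
  have tbc := two_itv hr hb.2 hc.2 (sub_subset S b) (sub_subset S c) (hzm b hb.1) (hzm c hc.1) hpb
    (hpb' c hc.1 hbc.symm) hpc (hpc' b hb.1 hbc)
  rcases sa with sa | sa <;> rcases sb with sb | sb <;> rcases sc with sc | sc
  · exact tab.1 ⟨sa, sb⟩
  · exact tab.1 ⟨sa, sb⟩
  · exact tac.1 ⟨sa, sc⟩
  · exact tbc.2 ⟨sb, sc⟩
  · exact tbc.1 ⟨sb, sc⟩
  · exact tac.2 ⟨sa, sc⟩
  · exact tab.2 ⟨sa, sb⟩
  · exact tab.2 ⟨sa, sb⟩

open Classical in
/-- the patterns with `sub S a` as an interval -/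
theorem many_itv {T B : ℕ} {S : Finset (Wd T B)} {s : Finset (Fin T × Fin B)} (h : Sh S s)
    {a : Fin T × Fin B} (ha : a ∈ s) (D : ℕ) :
    2 * (PL D (sub S a)).card ≤ ((PL (D + 1) S).filter fun P => Itv S (sub S a) P).card := by
  obtain ⟨p0, hp0, hp0'⟩ := h ∅ (empty_subset _)
  obtain ⟨q, hq, hq'⟩ := h s (Subset.refl s)
  have h1 : p0 a.1 ≠ a.2 := fun h2 => absurd ((hp0' a ha).1 h2) (notMem_empty _)
  have h2 : q a.1 = a.2 := (hq' a ha).2 ha
  have h3 : (PL D (sub S a)) ×ˢ (univ : Finset Bool) ⊆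
      ((PL (D + 1) S).filter fun P => Itv S (sub S a) P).image
        fun P => (res (sub S a) P, decide ((p0, q) ∈ P)) := by
    rintro ⟨Q, b⟩ hQ
    rw [mem_product, mem_PL] at hQ
    obtain ⟨⟨L, hL, rfl⟩, -⟩ := hQ
    obtain ⟨ε, hε⟩ := sign_cons S a L hp0 hq h1 h2 b
    rw [mem_image]
    refine ⟨pat (ltL ((a.1, ε) :: L)) S, mem_filter.2 ⟨mem_PL.2 ⟨(a.1, ε) :: L, by simp [hL], rfl⟩,
      itv_cons S a ε L⟩, Prod.ext ?_ ?_⟩
    · show res (sub S a) (pat (ltL ((a.1, ε) :: L)) S) = pat (ltL L) (sub S a)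
      rw [res_pat _ (sub_subset S a), pat_cons]
    · show decide ((p0, q) ∈ pat (ltL ((a.1, ε) :: L)) S) = b
      cases b
      · exact decide_eq_false fun h4 => absurd (hε.1 h4) (by decide)
      · exact decide_eq_true (hε.2 rfl)
  calc 2 * (PL D (sub S a)).card = ((PL D (sub S a)) ×ˢ (univ : Finset Bool)).card := by
        rw [card_product, card_univ, Fintype.card_bool, mul_comm]
    _ ≤ _ := card_le_card h3
    _ ≤ _ := card_image_le

theorem PL_zero {T B : ℕ} (S : Finset (Wd T B)) : 1 ≤ (PL 0 S).card := by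
  rw [Nat.one_le_iff_ne_zero, Ne, card_eq_zero, ← Ne, ← nonempty_iff_ne_empty]
  exact ⟨pat (ltL []) S, mem_PL.2 ⟨[], rfl, rfl⟩⟩

/-- shattered sets of `D` labels give `2 D!` patterns -/
theorem cube {T B : ℕ} (D : ℕ) : ∀ (S : Finset (Wd T B)) (s : Finset (Fin T × Fin B)),
    s.card = D + 1 → Sh S s → 2 * (D + 1).factorial ≤ (PL (D + 1) S).card := by
  classical
  induction D with
  | zero =>
    intro S s hs h
    obtain ⟨a, ha⟩ := card_eq_one.1 hs
    have ha' : a ∈ s := by rw [ha]; exact mem_singleton_self a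
    have h1 := many_itv h ha' 0
    have h2 := PL_zero (sub S a)
    have h3 : ((PL (0 + 1) S).filter fun P => Itv S (sub S a) P).card ≤ (PL (0 + 1) S).card :=
      card_filter_le _ _
    have h4 : (0 + 1).factorial = 1 := rfl
    rw [h4]
    omega
  | succ D ih =>
    intro S s hs h
    have h1 : ∀ a ∈ s, 2 * (2 * (D + 1).factorial) ≤
        ((PL (D + 1 + 1) S).filter fun P => Itv S (sub S a) P).card := by
      intro a ha
      have h2 := ih (sub S a) (s.erase a) (by rw [card_erase_of_mem ha, hs]; rfl) (h.erase ha)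
      exact (Nat.mul_le_mul_left 2 h2).trans (many_itv h ha (D + 1))
    have h2 : ∑ a ∈ s, ((PL (D + 1 + 1) S).filter fun P => Itv S (sub S a) P).card =
        ∑ P ∈ PL (D + 1 + 1) S, (s.filter fun a => Itv S (sub S a) P).card := by
      simp only [card_filter]
      exact sum_comm
    have h3 : ∀ P ∈ PL (D + 1 + 1) S, (s.filter fun a => Itv S (sub S a) P).card ≤ 2 := by
      intro P hP
      obtain ⟨L, -, rfl⟩ := mem_PL.1 hP
      exact at_most_two h L
    have h4 := card_nsmul_le_sum s _ _ h1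
    have h5 := sum_le_card_nsmul _ _ _ h3
    rw [h2] at h4
    rw [smul_eq_mul] at h4 h5
    rw [hs] at h4
    have h6 : (D + 1 + 1) * (2 * (2 * (D + 1).factorial)) ≤ (PL (D + 1 + 1) S).card * 2 :=
      h4.trans h5
    rw [Nat.factorial_succ (D + 1)]
    nlinarith

end Pool.Agent.H35.SH
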