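import Mathlib
import Pool.Agent.H14.TreeOrder

/-!
# Orders on words (MP_16ff77_co, polynomially many patterns): definitions

Words of `T` symbols over the alphabet `Fin B`. `ltS s`: lexicographic order, at the first differing
position `t` the smaller symbol `x` comes before all larger ones if `s (t, x)` and after them
otherwise. `ltL L`: compare first the positions in the list `L` (with signs), then
lexicographically. `pat r S`: the order induced by `r` on `S`. `Lam S`: the labels of `S`.
-/

set_option autoImplicit false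

namespace Pool.Agent.H35.SH

open Finset

/-- words -/
abbrev Wd (T B : ℕ) : Type := Fin T → Fin B

/-- the place of the symbol `x` with sign `ε` -/
def cat {B : ℕ} (ε : Bool) (x : Fin B) : ℤ := if ε then (x : ℤ) - B else B - x

/-- a symbol with sign -/
def sg {B : ℕ} (ε : Bool) (x : Fin B) : ℤ := if ε then (x : ℤ) else -x

/-- lexicographic order with caterpillars -/
def ltS {T B : ℕ} (s : Fin T × Fin B → Bool) (p q : Wd T B) : Prop :=
  ∃ t, (∀ j < t, p j = q j) ∧ cat (s (t, p t)) (p t) < cat (s (t, q t)) (q t)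

/-- compare the positions in the list first -/
def ltL {T B : ℕ} : List (Fin T × Bool) → Wd T B → Wd T B → Prop
  | [], p, q => ltS (fun _ => true) p q
  | a :: L, p, q => sg a.2 (p a.1) < sg a.2 (q a.1) ∨ (p a.1 = q a.1 ∧ ltL L p q)

open Classical in
/-- the order induced on `S` -/
noncomputable def pat {α : Type} (r : α → α → Prop) (S : Finset α) : Finset (α × α) :=
  (S ×ˢ S).filter fun p => r p.1 p.2

open Classical in
/-- the labels of `S`: positions and symbols of the smaller words at first differences -/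
noncomputable def Lam {T B : ℕ} (S : Finset (Wd T B)) : Finset (Fin T × Fin B) :=
  univ.filter fun a => ∃ p ∈ S, ∃ q ∈ S, (∀ j < a.1, p j = q j) ∧ p a.1 = a.2 ∧ a.2 < q a.1

/-- `S` shatters the set `s` of labels -/
def Sh {T B : ℕ} (S : Finset (Wd T B)) (s : Finset (Fin T × Fin B)) : Prop :=
  ∀ u ⊆ s, ∃ p ∈ S, ∀ a ∈ s, (p a.1 = a.2 ↔ a ∈ u)

open Classical in
/-- the words of `S` with the label `a` -/
noncomputable def sub {T B : ℕ} (S : Finset (Wd T B)) (a : Fin T × Fin B) : Finset (Wd T B) :=
  S.filter fun p => p a.1 = a.2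

/-- `A` is an interval in the pattern `P` on `S` -/
def Itv {α : Type} (S A : Finset α) (P : Finset (α × α)) : Prop :=
  ∀ p ∈ A, ∀ q ∈ A, ∀ r ∈ S, (p, r) ∈ P → (r, q) ∈ P → r ∈ A

open Classical in
/-- the patterns on `S` by the lists of length `D` -/
noncomputable def PL {T B : ℕ} (D : ℕ) (S : Finset (Wd T B)) : Finset (Finset (Wd T B × Wd T B)) :=
  (univ : Finset (Fin D → Fin T × Bool)).image fun l => pat (ltL (List.ofFn l)) S

/-- strict total orders -/
structure Sto {α : Type} (r : α → α → Prop) : Prop where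
  irr : ∀ p, ¬ r p p
  tr : ∀ p q w, r p q → r q w → r p w
  tri : ∀ p q, p ≠ q → r p q ∨ r q p

theorem mem_pat {α : Type} {r : α → α → Prop} {S : Finset α} {p q : α} :
    (p, q) ∈ pat r S ↔ (p ∈ S ∧ q ∈ S) ∧ r p q := by
  classical
  unfold pat
  rw [mem_filter, mem_product]

theorem mem_sub {T B : ℕ} {S : Finset (Wd T B)} {a : Fin T × Fin B} {p : Wd T B} :
    p ∈ sub S a ↔ p ∈ S ∧ p a.1 = a.2 := by
  classical
  unfold sub
  rw [mem_filter]

theorem mem_PL {T B D : ℕ} {S : Finset (Wd T B)} {P : Finset (Wd T B × Wd T B)} :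
    P ∈ PL D S ↔ ∃ L : List (Fin T × Bool), L.length = D ∧ pat (ltL L) S = P := by
  classical
  unfold PL
  rw [mem_image]
  constructor
  · rintro ⟨l, -, rfl⟩
    exact ⟨List.ofFn l, List.length_ofFn, rfl⟩
  · rintro ⟨L, rfl, rfl⟩
    refine ⟨L.get, mem_univ _, ?_⟩
    rw [List.ofFn_get]

end Pool.Agent.H35.SH
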