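import Pool.Agent.H35.SH.Lab
import Pool.Agent.H35.SH.Cube

/-!
# The family of permutations
-/

set_option autoImplicit false

namespace Pool.Agent.H35.SH

open Finset Pool.Agent.H14.Shatter

theorem pat_eq_of_ind {n : ℕ} {α : Type} {e : Fin n → α} {r r' : α → α → Prop}
    {ρ ρ' : Equiv.Perm (Fin n)} (h : ∀ x y, ρ x < ρ y ↔ r (e x) (e y))
    (h' : ∀ x y, ρ' x < ρ' y ↔ r' (e x) (e y)) (X : Finset (Fin n)) (S : Finset α)
    (hS : ∀ p, p ∈ S ↔ ∃ x ∈ X, e x = p) (heq : ind ρ X = ind ρ' X) : pat r S = pat r' S := by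
  ext ⟨p, q⟩
  rw [mem_pat, mem_pat]
  refine and_congr_right fun hpq => ?_
  obtain ⟨x, hx, rfl⟩ := (hS p).1 hpq.1
  obtain ⟨y, hy, rfl⟩ := (hS q).1 hpq.2
  rw [← h, ← h']
  have h1 : (x, y) ∈ ind ρ X ↔ (x, y) ∈ ind ρ' X := by rw [heq]
  have h2 : ∀ σ : Equiv.Perm (Fin n), (x, y) ∈ ind σ X ↔ σ x < σ y := by
    intro σ
    show (x, y) ∈ (X ×ˢ X).filter (fun p => σ p.1 < σ p.2) ↔ _
    rw [mem_filter, mem_product]
    exact and_iff_right ⟨hx, hy⟩
  exact (h2 ρ).symm.trans (h1.trans (h2 ρ'))

theorem family {n T B m D k : ℕ} (e : Fin n → Wd T B) (he : Function.Injective e)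
    (F : Finset (Fin T × Fin B → Bool)) (hF : Universal m F)
    (hk : ∑ i ∈ range (D + 1), (m - 1).choose i < k) :
    ∃ P : Finset (Equiv.Perm (Fin n)), P.card ≤ F.card + (2 * T) ^ (D + 1) ∧
      ∀ X : Finset (Fin n), X.card = k →
        2 ^ m ≤ (P.image fun ρ => ind ρ X).card ∨
          2 * (D + 1).factorial ≤ (P.image fun ρ => ind ρ X).card := by
  classical
  choose f hf using fun s : Fin T × Fin B → Bool => sto_perm (sto_ltS s) e he
  choose g hg using fun l : Fin (D + 1) → Fin T × Bool =>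
    sto_perm (sto_ltL (B := B) (List.ofFn l)) e he
  refine ⟨F.image f ∪ univ.image g, ?_, fun X hX => ?_⟩
  · calc (F.image f ∪ univ.image g).card ≤ (F.image f).card + (univ.image g).card :=
          card_union_le _ _
      _ ≤ F.card + (univ : Finset (Fin (D + 1) → Fin T × Bool)).card :=
          add_le_add card_image_le card_image_le
      _ = F.card + (2 * T) ^ (D + 1) := by
          rw [card_univ, Fintype.card_fun, Fintype.card_prod, Fintype.card_bool, Fintype.card_fin,
            Fintype.card_fin, mul_comm T 2]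
  · have hSc : (X.image e).card = k := by rw [card_image_of_injective _ he, hX]
    have hS : ∀ p, p ∈ X.image e ↔ ∃ x ∈ X, e x = p := fun p => mem_image
    by_cases hL : m ≤ (Lam (X.image e)).card
    · left
      obtain ⟨γ, hγF, hγ⟩ := count_S F hF (X.image e) hL
      calc 2 ^ m = (univ : Finset (Fin m → Bool)).card := by
            rw [card_univ, Fintype.card_fun, Fintype.card_bool, Fintype.card_fin]
        _ ≤ _ := card_le_card_of_injOn (fun β => ind (f (γ β)) X)
            (fun β _ => mem_coe.2 (mem_image.2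
              ⟨f (γ β), mem_union_left _ (mem_image_of_mem f (hγF β)), rfl⟩))
            (fun β _ β' _ h => hγ (pat_eq_of_ind (hf _) (hf _) X _ hS h))
    · right
      obtain ⟨s, hs, hSh⟩ := exists_Sh (X.image e) (m := m - 1) (D := D + 1) (by omega)
        (by rw [hSc]; exact hk)
      refine (cube D (X.image e) s hs hSh).trans ?_
      have h1 : ∀ Q ∈ PL (D + 1) (X.image e), ∃ l : Fin (D + 1) → Fin T × Bool,
          pat (ltL (List.ofFn l)) (X.image e) = Q := by
        intro Q hQ
        unfold PL at hQ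
        obtain ⟨l, -, h2⟩ := mem_image.1 hQ
        exact ⟨l, h2⟩
      choose l hl using h1
      rw [← card_attach (s := PL (D + 1) (X.image e))]
      exact card_le_card_of_injOn (fun Q => ind (g (l Q.1 Q.2)) X)
        (fun Q _ => mem_coe.2 (mem_image.2
          ⟨g (l Q.1 Q.2), mem_union_right _ (mem_image_of_mem g (mem_univ _)), rfl⟩))
        (fun Q _ Q' _ h => Subtype.ext (by
          rw [← hl Q.1 Q.2, ← hl Q'.1 Q'.2]
          exact pat_eq_of_ind (hg _) (hg _) X _ hS h))

end Pool.Agent.H35.SH
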