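import Pool.Agent.H35.SH.Lin

/-!
# Labels: many labels give many patterns, few labels determine the words
-/

set_option autoImplicit false

namespace Pool.Agent.H35.SH

open Finset Pool.Agent.H14.Shatter

theorem ltS_label {T B : ℕ} (s : Fin T × Fin B → Bool) {p q : Wd T B} {t : Fin T}
    (h : ∀ j < t, p j = q j) (hlt : p t < q t) : ltS s p q ↔ s (t, p t) = true := by
  constructor
  · rintro ⟨u, h1, h2⟩
    have hu : u = t := by
      rcases lt_trichotomy u t with h3 | h3 | h3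
      · rw [h u h3] at h2
        exact absurd h2 (lt_irrefl _)
      · exact h3
      · exact absurd (h1 t h3) hlt.ne
    subst hu
    exact (cat_lt hlt _ _).1 h2
  · intro h1
    exact ⟨t, h, (cat_lt hlt _ _).2 h1⟩

theorem mem_Lam {T B : ℕ} {S : Finset (Wd T B)} {a : Fin T × Fin B} :
    a ∈ Lam S ↔ ∃ p ∈ S, ∃ q ∈ S, (∀ j < a.1, p j = q j) ∧ p a.1 = a.2 ∧ a.2 < q a.1 := by
  classical
  unfold Lam
  rw [mem_filter]
  exact and_iff_right (mem_univ _)

/-- many labels give many patterns -/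
theorem count_S {T B m : ℕ} (F : Finset (Fin T × Fin B → Bool)) (hF : Universal m F)
    (S : Finset (Wd T B)) (hm : m ≤ (Lam S).card) :
    ∃ g : (Fin m → Bool) → (Fin T × Fin B → Bool), (∀ β, g β ∈ F) ∧
      Function.Injective fun β => pat (ltS (g β)) S := by
  classical
  obtain ⟨τ, hτ, hτL⟩ : ∃ τ : Fin m → Fin T × Fin B, Function.Injective τ ∧ ∀ i, τ i ∈ Lam S := by
    refine ⟨fun i => ((Lam S).equivFin.symm (Fin.castLE hm i)).1, ?_, fun i => ?_⟩
    · intro i j hij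
      have h1 := Subtype.ext hij
      have h2 := (Lam S).equivFin.symm.injective h1
      exact Fin.castLE_injective hm h2
    · exact ((Lam S).equivFin.symm (Fin.castLE hm i)).2
  have h1 : ∀ β : Fin m → Bool, ∃ f ∈ F, ∀ r, f (τ r) = β r := fun β => hF τ hτ β
  choose g hg1 hg2 using h1
  refine ⟨g, hg1, ?_⟩
  intro β β' hβ
  funext r
  obtain ⟨p, hp, q, hq, h3, h4, h5⟩ := mem_Lam.1 (hτL r)
  rw [← h4] at h5
  have h6 : ∀ γ : Fin m → Bool, (p, q) ∈ pat (ltS (g γ)) S ↔ γ r = true := by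
    intro γ
    rw [mem_pat, and_iff_right ⟨hp, hq⟩, ltS_label (g γ) h3 h5, ← hg2 γ r]
    have h7 : ((τ r).1, p (τ r).1) = τ r := Prod.ext rfl h4
    rw [h7]
  have h8 : pat (ltS (g β)) S = pat (ltS (g β')) S := hβ
  have h9 := (h6 β).symm.trans ((Eq.to_iff (by rw [h8])).trans (h6 β'))
  cases h10 : β r <;> cases h11 : β' r
  · rfl
  · rw [h10, h11] at h9
    simp at h9
  · rw [h10, h11] at h9
    simp at h9
  · rfl

/-- the labels of a word of `S` -/
noncomputable def lab {T B : ℕ} (S : Finset (Wd T B)) (p : Wd T B) : Finset (Fin T × Fin B) :=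
  open Classical in (Lam S).filter fun a => p a.1 = a.2

theorem mem_lab {T B : ℕ} {S : Finset (Wd T B)} {p : Wd T B} {a : Fin T × Fin B} :
    a ∈ lab S p ↔ a ∈ Lam S ∧ p a.1 = a.2 := by
  classical
  unfold lab
  rw [mem_filter]

theorem lab_inj {T B : ℕ} (S : Finset (Wd T B)) {p q : Wd T B} (hp : p ∈ S) (hq : q ∈ S)
    (h : lab S p = lab S q) : p = q := by
  by_contra hne
  obtain ⟨t, h1, h2⟩ := first_diff hne
  rcases lt_or_gt_of_ne h2 with h3 | h3
  · have h4 : (t, p t) ∈ lab S p :=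
      mem_lab.2 ⟨mem_Lam.2 ⟨p, hp, q, hq, h1, rfl, h3⟩, rfl⟩
    rw [h] at h4
    exact h2 (mem_lab.1 h4).2.symm
  · have h4 : (t, q t) ∈ lab S q :=
      mem_lab.2 ⟨mem_Lam.2 ⟨q, hq, p, hp, fun j hj => (h1 j hj).symm, rfl, h3⟩, rfl⟩
    rw [← h] at h4
    exact h2 (mem_lab.1 h4).2

/-- Sauer-Shelah: more than `∑_{i<D} C(|Λ|, i)` subsets of `Λ` shatter a set of size `D` -/
theorem sauer {α : Type} [DecidableEq α] (Λ : Finset α) (𝒜 : Finset (Finset α))
    (h𝒜 : ∀ u ∈ 𝒜, u ⊆ Λ) (D : ℕ) (h : ∑ i ∈ range D, Λ.card.choose i < 𝒜.card) :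
    ∃ s : Finset α, s ⊆ Λ ∧ s.card = D ∧ 𝒜.Shatters s := by
  classical
  by_contra hcon
  push Not at hcon
  have h1 : 𝒜.shatterer ⊆ (range D).biUnion fun i => Λ.powersetCard i := by
    intro s hs
    rw [mem_shatterer] at hs
    have hsΛ : s ⊆ Λ := by
      obtain ⟨u, hu, hsu⟩ := hs (Subset.refl s)
      exact (inter_eq_left.1 hsu).trans (h𝒜 u hu)
    rw [mem_biUnion]
    refine ⟨s.card, ?_, mem_powersetCard.2 ⟨hsΛ, rfl⟩⟩
    rw [mem_range]
    by_contra hD
    obtain ⟨s', hs', hc⟩ := exists_subset_card_eq (not_lt.1 hD)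
    exact hcon s' (hs'.trans hsΛ) hc (hs.mono_right hs')
  have h2 : 𝒜.card ≤ ∑ i ∈ range D, Λ.card.choose i := by
    calc 𝒜.card ≤ 𝒜.shatterer.card := card_le_card_shatterer 𝒜
      _ ≤ ((range D).biUnion fun i => Λ.powersetCard i).card := card_le_card h1
      _ ≤ ∑ i ∈ range D, (Λ.powersetCard i).card := card_biUnion_le
      _ = ∑ i ∈ range D, Λ.card.choose i := by simp only [card_powersetCard]
  omega

/-- few labels: the words of `S` shatter a set of `D` labels -/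
theorem exists_Sh {T B D m : ℕ} (S : Finset (Wd T B)) (hm : (Lam S).card ≤ m)
    (h : ∑ i ∈ range D, m.choose i < S.card) :
    ∃ s : Finset (Fin T × Fin B), s.card = D ∧ Sh S s := by
  classical
  obtain ⟨s, hsL, hsc, hs⟩ := sauer (Lam S) (S.image (lab S))
    (fun u hu => by
      obtain ⟨p, -, rfl⟩ := mem_image.1 hu
      intro a ha
      exact (mem_lab.1 ha).1) D (by
      rw [card_image_of_injOn fun p hp q hq => lab_inj S hp hq]
      refine lt_of_le_of_lt (sum_le_sum fun i _ => ?_) h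
      exact Nat.choose_le_choose i hm)
  refine ⟨s, hsc, fun u hu => ?_⟩
  obtain ⟨v, hv, hvs⟩ := hs hu
  obtain ⟨p, hp, rfl⟩ := mem_image.1 hv
  refine ⟨p, hp, fun a ha => ?_⟩
  rw [← hvs, mem_inter, mem_lab]
  exact ⟨fun h1 => ⟨ha, hsL ha, h1⟩, fun h1 => h1.2.2⟩

end Pool.Agent.H35.SH
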