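import Pool.Agent.H35.SH.Defs

/-!
# The orders on words are strict total orders
-/

set_option autoImplicit false

namespace Pool.Agent.H35.SH

open Finset

theorem cat_true {B : ℕ} (x : Fin B) : cat true x = (x : ℤ) - B := if_pos rfl

theorem cat_false {B : ℕ} (x : Fin B) : cat false x = (B : ℤ) - x := if_neg (by decide)

theorem cat_abs {B : ℕ} (ε : Bool) (x : Fin B) : |cat ε x| = B - x := by
  have h : (x : ℤ) < B := by exact_mod_cast x.2
  cases ε
  · rw [cat_false]
    exact abs_of_pos (by linarith)
  · rw [cat_true, abs_sub_comm]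
    exact abs_of_pos (by linarith)

theorem cat_inj {B : ℕ} {ε ε' : Bool} {x y : Fin B} (h : cat ε x = cat ε' y) : x = y := by
  have h1 := cat_abs ε x
  have h2 := cat_abs ε' y
  rw [h, h2] at h1
  have h3 : (x : ℤ) = y := by linarith
  exact Fin.ext (by exact_mod_cast h3)

theorem cat_lt {B : ℕ} {x y : Fin B} (hxy : x < y) (ε ε' : Bool) :
    cat ε x < cat ε' y ↔ ε = true := by
  have h0 : (x : ℤ) < y := by exact_mod_cast hxy
  have h1 : (y : ℤ) < B := by exact_mod_cast y.2
  have h2 := abs_le.1 (cat_abs ε' y).le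
  cases ε
  · simp only [Bool.false_eq_true, iff_false, not_lt]
    rw [cat_false]
    linarith
  · simp only [iff_true]
    rw [cat_true]
    linarith

theorem cat_gt {B : ℕ} {x y : Fin B} (hxy : x < y) (ε ε' : Bool) :
    cat ε' y < cat ε x ↔ ε = false := by
  have h0 : (x : ℤ) < y := by exact_mod_cast hxy
  have h1 : (y : ℤ) < B := by exact_mod_cast y.2
  have h2 := abs_le.1 (cat_abs ε' y).le
  cases ε
  · simp only [iff_true]
    rw [cat_false]
    linarith
  · simp only [Bool.true_eq_false, iff_false, not_lt]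
    rw [cat_true]
    linarith

theorem first_diff {T B : ℕ} {p q : Wd T B} (h : p ≠ q) : ∃ t, (∀ j < t, p j = q j) ∧ p t ≠ q t := by
  classical
  have h1 : ∃ t : Fin T, p t ≠ q t := by
    by_contra h2
    push Not at h2
    exact h (funext h2)
  obtain ⟨t, ht, hmin⟩ := WellFounded.has_min (wellFounded_lt (α := Fin T)) {t | p t ≠ q t} h1
  refine ⟨t, fun j hj => ?_, ht⟩
  by_contra h2
  exact hmin j h2 hj

theorem sto_ltS {T B : ℕ} (s : Fin T × Fin B → Bool) : Sto (ltS s) where
  irr p h := by
    obtain ⟨t, -, h1⟩ := h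
    exact lt_irrefl _ h1
  tr p q w h1 h2 := by
    obtain ⟨t, h3, h4⟩ := h1
    obtain ⟨u, h5, h6⟩ := h2
    rcases lt_trichotomy t u with h | h | h
    · refine ⟨t, fun j hj => (h3 j hj).trans (h5 j (hj.trans h)), ?_⟩
      rw [← h5 t h]
      exact h4
    · subst h
      exact ⟨t, fun j hj => (h3 j hj).trans (h5 j hj), h4.trans h6⟩
    · refine ⟨u, fun j hj => (h3 j (hj.trans h)).trans (h5 j hj), ?_⟩
      rw [h3 u h]
      exact h6
  tri p q h := by
    obtain ⟨t, h1, h2⟩ := first_diff h
    rcases lt_trichotomy (cat (s (t, p t)) (p t)) (cat (s (t, q t)) (q t)) with h3 | h3 | h3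
    · exact Or.inl ⟨t, h1, h3⟩
    · exact absurd (cat_inj h3) h2
    · exact Or.inr ⟨t, fun j hj => (h1 j hj).symm, h3⟩

theorem sg_inj {B : ℕ} {ε : Bool} {x y : Fin B} (h : sg ε x = sg ε y) : x = y := by
  unfold sg at h
  cases ε
  · rw [if_neg (by decide), if_neg (by decide)] at h
    have h3 : (x : ℤ) = y := by linarith
    exact Fin.ext (by exact_mod_cast h3)
  · rw [if_pos rfl, if_pos rfl] at h
    exact Fin.ext (by exact_mod_cast h)

theorem sto_ltL {T B : ℕ} (L : List (Fin T × Bool)) : Sto (ltL (B := B) L) := by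
  induction L with
  | nil => exact sto_ltS fun _ => true
  | cons a L ih =>
    refine ⟨fun p h => ?_, fun p q w h1 h2 => ?_, fun p q h => ?_⟩
    · rcases h with h | h
      · exact lt_irrefl _ h
      · exact ih.irr p h.2
    · rcases h1 with h1 | ⟨h1, h1'⟩
      · rcases h2 with h2 | ⟨h2, h2'⟩
        · exact Or.inl (h1.trans h2)
        · left
          rw [← h2]
          exact h1
      · rcases h2 with h2 | ⟨h2, h2'⟩
        · left
          rw [h1]
          exact h2
        · exact Or.inr ⟨h1.trans h2, ih.tr p q w h1' h2'⟩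
    · by_cases h1 : p a.1 = q a.1
      · rcases ih.tri p q h with h2 | h2
        · exact Or.inl (Or.inr ⟨h1, h2⟩)
        · exact Or.inr (Or.inr ⟨h1.symm, h2⟩)
      · rcases lt_trichotomy (sg a.2 (p a.1)) (sg a.2 (q a.1)) with h3 | h3 | h3
        · exact Or.inl (Or.inl h3)
        · exact absurd (sg_inj h3) h1
        · exact Or.inr (Or.inl h3)

/-- a permutation which realises a strict total order on the words -/
theorem sto_perm {n : ℕ} {α : Type} {r : α → α → Prop} (hr : Sto r) (e : Fin n → α)
    (he : Function.Injective e) :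
    ∃ ρ : Equiv.Perm (Fin n), ∀ x y, ρ x < ρ y ↔ r (e x) (e y) := by
  classical
  have : IsStrictTotalOrder α r :=
    { irrefl := hr.irr
      trans := hr.tr
      trichotomous := fun a b h1 h2 => by
        by_contra h3
        rcases hr.tri a b h3 with h | h
        · exact h1 h
        · exact h2 h }
  let _ := linearOrderOfSTO r
  exact Pool.Agent.H14.Shatter.exists_perm e he

end Pool.Agent.H35.SH
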