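import Mathlib

/-!
# Numerics for MP_16ff77_co.PolynomialPatterns

Plan: `L = Nat.log 2 k`, `q` with `2 ^ q ≥ 8 * (A + 1)`, `m = A * (L + 1)`, `D + 1 = L / (2 * q)`.
(1) `k ^ A ≤ 2 ^ ((L + 1) * A)` (`Nat.lt_pow_succ_log_self`).
(2) `Σ_{i ≤ D} C(m, i) ≤ 2 ^ (q D) (1 + 2 ^ (-q)) ^ m ≤ 2 ^ (L / 2) * exp (m / 2 ^ q) < 2 ^ L ≤ k`
    for `L` large (`(1 + x) ^ m = Σ C(m, i) x ^ i`, `Real.add_one_le_exp`).
(3) `k ≤ 2 ^ (L + 1) ≤ (2 ^ (4 q)) ^ (D + 1)`, so `k ^ A ≤ c ^ (D + 1) ≤ (D + 1)!` for `D` large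
    (`FloorSemiring.tendsto_pow_div_factorial_atTop`).
-/

set_option autoImplicit false

namespace Pool.Agent.H35.SH

open Finset

/-- the sum of the first binomial coefficients -/
theorem sum_choose_le (M D : ℕ) (Q : ℝ) (hQ : 1 ≤ Q) :
    ((∑ i ∈ range (D + 1), M.choose i : ℕ) : ℝ) ≤ Q ^ D * Real.exp (M / Q) := by
  have hQ0 : 0 < Q := by linarith
  have h1 : ((∑ i ∈ range (D + 1), M.choose i : ℕ) : ℝ)
      ≤ ∑ i ∈ range (D + 1), Q ^ D * ((1 / Q) ^ i * (M.choose i : ℝ)) := by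
    push_cast
    refine Finset.sum_le_sum fun i hi => ?_
    have hi' : i ≤ D := by
      have := Finset.mem_range.mp hi
      omega
    have h2 : (1 : ℝ) ≤ Q ^ D * (1 / Q) ^ i := by
      rw [one_div, inv_pow, ← div_eq_mul_inv, le_div_iff₀ (pow_pos hQ0 i), one_mul]
      exact pow_le_pow_right₀ hQ hi'
    have h3 : (0 : ℝ) ≤ (M.choose i : ℝ) := Nat.cast_nonneg _
    nlinarith
  have h4 : ∑ i ∈ range (D + 1), Q ^ D * ((1 / Q) ^ i * (M.choose i : ℝ))
      ≤ Q ^ D * (1 / Q + 1) ^ M := by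
    rw [← Finset.mul_sum]
    refine mul_le_mul_of_nonneg_left ?_ (by positivity)
    rw [add_pow]
    have h5 : ∀ i : ℕ, (1 / Q) ^ i * (1 : ℝ) ^ (M - i) * (M.choose i : ℝ)
        = (1 / Q) ^ i * (M.choose i : ℝ) := by
      intro i
      rw [one_pow, mul_one]
    rw [Finset.sum_congr rfl fun i _ => h5 i]
    by_cases hDM : D ≤ M
    · refine Finset.sum_le_sum_of_subset_of_nonneg ?_ fun i _ _ => by positivity
      intro i hi
      rw [Finset.mem_range] at hi ⊢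
      omega
    · have hMD : M ≤ D := by omega
      apply le_of_eq
      symm
      refine Finset.sum_subset ?_ ?_
      · intro i hi
        rw [Finset.mem_range] at hi ⊢
        omega
      · intro i _ hi
        rw [Finset.mem_range] at hi
        rw [Nat.choose_eq_zero_of_lt (by omega)]
        simp
  have h6 : (1 / Q + 1) ^ M ≤ Real.exp (M / Q) := by
    have h7 : (1 / Q + 1) ≤ Real.exp (1 / Q) := Real.add_one_le_exp _
    calc (1 / Q + 1) ^ M ≤ (Real.exp (1 / Q)) ^ M :=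
          pow_le_pow_left₀ (by positivity) h7 M
      _ = Real.exp (M / Q) := by
          rw [← Real.exp_nat_mul]
          congr 1
          ring
  calc ((∑ i ∈ range (D + 1), M.choose i : ℕ) : ℝ)
      ≤ ∑ i ∈ range (D + 1), Q ^ D * ((1 / Q) ^ i * (M.choose i : ℝ)) := h1
    _ ≤ Q ^ D * (1 / Q + 1) ^ M := h4
    _ ≤ Q ^ D * Real.exp (M / Q) := mul_le_mul_of_nonneg_left h6 (by positivity)

/-- powers are at most factorials for large n -/
theorem pow_le_factorial_ev (c : ℕ) : ∃ n0 : ℕ, ∀ n : ℕ, n0 ≤ n → c ^ n ≤ n.factorial := by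
  have h := FloorSemiring.tendsto_pow_div_factorial_atTop (c : ℝ)
  have h1 : ∀ᶠ n : ℕ in Filter.atTop, (c : ℝ) ^ n / (n.factorial : ℝ) < 1 :=
    h.eventually (gt_mem_nhds one_pos)
  obtain ⟨n0, hn0⟩ := Filter.eventually_atTop.mp h1
  refine ⟨n0, fun n hn => ?_⟩
  have h2 := hn0 n hn
  have h3 : (0 : ℝ) < (n.factorial : ℝ) := by exact_mod_cast Nat.factorial_pos n
  rw [div_lt_one h3] at h2
  exact_mod_cast h2.le

theorem numerics (A : ℕ) : ∃ k0 : ℕ, ∀ k : ℕ, k0 ≤ k → ∃ m D : ℕ, 1 ≤ m ∧ D + 1 ≤ Nat.log 2 k ∧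
    ∑ i ∈ range (D + 1), (m - 1).choose i < k ∧ k ^ A ≤ 2 ^ m ∧ k ^ A ≤ 2 * (D + 1).factorial := by
  obtain ⟨n0, hn0⟩ := pow_le_factorial_ev (2 ^ (4 * (A + 3) * A))
  refine ⟨2 ^ (2 * (A + 3) * (n0 + 1)), fun k hk => ?_⟩
  have hk0 : k ≠ 0 := by
    have : 0 < 2 ^ (2 * (A + 3) * (n0 + 1)) := by positivity
    omega
  obtain ⟨L, hL⟩ : ∃ L, L = Nat.log 2 k := ⟨_, rfl⟩
  have hLk : 2 ^ L ≤ k := by
    rw [hL]
    exact Nat.pow_log_le_self 2 hk0
  have hkL : k < 2 ^ (L + 1) := by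
    rw [hL]
    exact Nat.lt_pow_succ_log_self (by norm_num) k
  have hLbig : 2 * (A + 3) * (n0 + 1) ≤ L := by
    rw [hL]
    exact Nat.le_log_of_pow_le (by norm_num) hk
  obtain ⟨q, hq⟩ : ∃ q, q = A + 3 := ⟨_, rfl⟩
  rw [← hq] at hLbig hn0
  have hq0 : 0 < 2 * q := by omega
  obtain ⟨E, hE⟩ : ∃ E, E = L / (2 * q) := ⟨_, rfl⟩
  have hE1 : n0 + 1 ≤ E := by
    rw [hE, Nat.le_div_iff_mul_le hq0]
    linarith [mul_comm (n0 + 1) (2 * q)]
  have hE2 : 2 * q * E ≤ L := by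
    rw [hE]
    exact Nat.mul_div_le L (2 * q)
  have hE3 : L < 2 * q * (E + 1) := by
    rw [hE]
    exact Nat.lt_mul_div_succ L hq0
  have hEL : E ≤ L := by
    rw [hE]
    exact Nat.div_le_self _ _
  refine ⟨A * (L + 1) + 1, E - 1, by omega, ?_, ?_, ?_, ?_⟩
  · omega
  · rw [Nat.add_sub_cancel]
    have h1 := sum_choose_le (A * (L + 1)) (E - 1) ((2 : ℝ) ^ q)
      (one_le_pow₀ (by norm_num))
    have h2 : ((2 : ℝ) ^ q) ^ (E - 1) * Real.exp (((A * (L + 1) : ℕ) : ℝ) / 2 ^ q)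
        < (2 : ℝ) ^ L := by
      have hlog : (1 : ℝ) / 2 < Real.log 2 := by
        have := Real.log_two_gt_d9
        linarith
      have h2e : (2 : ℝ) = Real.exp (Real.log 2) := (Real.exp_log (by norm_num)).symm
      have h3 : ((2 : ℝ) ^ q) ^ (E - 1) = Real.exp (((q * (E - 1) : ℕ) : ℝ) * Real.log 2) := by
        rw [← pow_mul, Real.exp_nat_mul, Real.exp_log (by norm_num)]
      have h4 : (2 : ℝ) ^ L = Real.exp ((L : ℝ) * Real.log 2) := by
        rw [Real.exp_nat_mul, Real.exp_log (by norm_num)]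
      rw [h3, h4, ← Real.exp_add, Real.exp_lt_exp]
      have h5 : 8 * ((A : ℝ) + 1) ≤ (2 : ℝ) ^ q := by
        have h6 : A + 1 ≤ 2 ^ A := Nat.lt_two_pow_self
        have h7 : ((A + 1 : ℕ) : ℝ) ≤ ((2 ^ A : ℕ) : ℝ) := by exact_mod_cast h6
        push_cast at h7
        rw [hq, pow_add]
        norm_num
        linarith
      have h8 : ((A * (L + 1) : ℕ) : ℝ) / 2 ^ q ≤ ((L : ℝ) + 1) / 8 := by
        rw [div_le_div_iff₀ (by positivity) (by norm_num)]
        push_cast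
        have hA0 : (0 : ℝ) ≤ A := Nat.cast_nonneg A
        have hL0 : (0 : ℝ) ≤ L := Nat.cast_nonneg L
        nlinarith
      have h9 : ((q * (E - 1) : ℕ) : ℝ) ≤ (L : ℝ) / 2 := by
        have h10 : 2 * (q * (E - 1)) ≤ L := by
          calc 2 * (q * (E - 1)) = 2 * q * (E - 1) := by ring
            _ ≤ 2 * q * E := Nat.mul_le_mul_left _ (Nat.sub_le _ _)
            _ ≤ L := hE2
        have h11 : ((2 * (q * (E - 1)) : ℕ) : ℝ) ≤ (L : ℝ) := by exact_mod_cast h10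
        push_cast at h11 ⊢
        linarith
      have hLn : (1 : ℝ) ≤ L := by
        have : 1 ≤ L := by omega
        exact_mod_cast this
      have h12 : ((q * (E - 1) : ℕ) : ℝ) * Real.log 2 ≤ (L : ℝ) / 2 * Real.log 2 :=
        mul_le_mul_of_nonneg_right h9 (by linarith)
      by_cases hL2 : 1 < L
      · have hL2' : (2 : ℝ) ≤ L := by exact_mod_cast hL2
        nlinarith
      · exfalso
        have h13 : 2 * q * (n0 + 1) ≤ 1 := by omega
        have h14 : 1 ≤ (n0 + 1) := by omega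
        have h15 : 2 * q * 1 ≤ 2 * q * (n0 + 1) := Nat.mul_le_mul_left _ h14
        omega
    have h3 : ((2 ^ L : ℕ) : ℝ) ≤ (k : ℝ) := by exact_mod_cast hLk
    push_cast at h3
    have h4 : ((∑ i ∈ range (E - 1 + 1), (A * (L + 1)).choose i : ℕ) : ℝ) < (k : ℝ) := by
      linarith
    exact_mod_cast h4
  · calc k ^ A ≤ (2 ^ (L + 1)) ^ A := Nat.pow_le_pow_left hkL.le A
      _ = 2 ^ (A * (L + 1)) := by rw [← pow_mul, mul_comm]
      _ ≤ 2 ^ (A * (L + 1) + 1) := Nat.pow_le_pow_right (by norm_num) (by omega)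
  · have h1 : E - 1 + 1 = E := by omega
    rw [h1]
    have h2 := hn0 E (by omega)
    have h3 : (L + 1) * A ≤ 4 * q * A * E := by
      have h4 : L + 1 ≤ 4 * q * E := by
        have h5 : 2 * q * (E + 1) ≤ 4 * q * E := by
          have h6 : E + 1 ≤ 2 * E := by omega
          calc 2 * q * (E + 1) ≤ 2 * q * (2 * E) := Nat.mul_le_mul_left _ h6
            _ = 4 * q * E := by ring
        omega
      calc (L + 1) * A ≤ 4 * q * E * A := Nat.mul_le_mul_right _ h4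
        _ = 4 * q * A * E := by ring
    calc k ^ A ≤ (2 ^ (L + 1)) ^ A := Nat.pow_le_pow_left hkL.le A
      _ = 2 ^ ((L + 1) * A) := by rw [← pow_mul]
      _ ≤ 2 ^ (4 * q * A * E) := Nat.pow_le_pow_right (by norm_num) h3
      _ = (2 ^ (4 * q * A)) ^ E := by rw [pow_mul]
      _ ≤ E.factorial := h2
      _ ≤ 2 * E.factorial := by omega

end Pool.Agent.H35.SH
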