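import Mathlib

/-!
# Sizes for MP_16ff77_co.PolynomialPatterns

Plan: `N = Nat.clog 2 n`, `Y = N ^ (1 / (D + 2))`, `T = ⌈Y⌉₊` (`Y ≤ T ≤ 2 Y`), `b = N / T + 1`
(`N ≤ T * b`, `b ≤ Y ^ (D + 1) + 1`), `B = 2 ^ b`;
`Nat.log 2 (2 * (T * 2 ^ b)) = Nat.log 2 T + b + 1 ≤ T + b + 1`. So the total is at most
`(5 * M + 2 + 4 ^ (D + 1)) * Y ^ (D + 1)`, and `Y ^ (D + 1) = N ^ (1 - 1 / (D + 2))`,
`N ≤ 3 * Real.log n`.
-/

set_option autoImplicit false

namespace Pool.Agent.H35.SH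

theorem sizes (M D : ℕ) : ∃ C : ℝ, 0 < C ∧ ∀ n : ℕ, 3 ≤ n → ∃ T B : ℕ, 1 ≤ T ∧ 1 ≤ B ∧
    n ≤ B ^ T ∧ ((M * Nat.log 2 (2 * (T * B)) + 2 + (2 * T) ^ (D + 1) : ℕ) : ℝ) ≤
      C * (Real.log n) ^ (1 - 1 / ((D : ℝ) + 2)) := by
  refine ⟨3 * (5 * M + 2 + 4 ^ (D + 1)), by positivity, ?_⟩
  intro n hn
  obtain ⟨N, hN⟩ : ∃ N, N = Nat.clog 2 n := ⟨_, rfl⟩
  have hN1 : 1 ≤ N := by
    rw [hN]
    exact Nat.clog_pos (by norm_num) (by omega)
  have hnN : n ≤ 2 ^ N := by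
    rw [hN]
    exact Nat.le_pow_clog (by norm_num) n
  have hlog3 : 1 ≤ Real.log n := by
    rw [Real.le_log_iff_exp_le (by exact_mod_cast (by omega : 0 < n))]
    have h1 := Real.exp_one_lt_d9
    have h2 : (3 : ℝ) ≤ n := by exact_mod_cast hn
    linarith
  have hNlog : (N : ℝ) ≤ 3 * Real.log n := by
    have h1 : 2 ^ (N - 1) < n := by
      rw [hN]
      exact Nat.pow_pred_clog_lt_self (by norm_num) (by omega)
    have h2 : (2 : ℝ) ^ (N - 1) ≤ n := by exact_mod_cast h1.le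
    have h3 := Real.log_le_log (by positivity) h2
    rw [Real.log_pow] at h3
    have h4 : ((N - 1 : ℕ) : ℝ) = (N : ℝ) - 1 := by
      rw [Nat.cast_sub hN1]
      norm_num
    rw [h4] at h3
    have h5 := Real.log_two_gt_d9
    have h6 : 0 ≤ (N : ℝ) - 1 := by
      have : (1 : ℝ) ≤ N := by exact_mod_cast hN1
      linarith
    nlinarith
  have hNr : (1 : ℝ) ≤ N := by exact_mod_cast hN1
  have hD2 : (0 : ℝ) < (D : ℝ) + 2 := by positivity
  obtain ⟨Y, hY⟩ : ∃ Y : ℝ, Y = (N : ℝ) ^ (1 / ((D : ℝ) + 2)) := ⟨_, rfl⟩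
  have hY1 : 1 ≤ Y := by
    rw [hY]
    exact Real.one_le_rpow hNr (by positivity)
  have hY0 : 0 < Y := by linarith
  have hYD2 : Y ^ (D + 2) = N := by
    rw [hY, ← Real.rpow_natCast, ← Real.rpow_mul (by linarith)]
    have h1 : 1 / ((D : ℝ) + 2) * ((D + 2 : ℕ) : ℝ) = 1 := by
      push_cast
      field_simp
    rw [h1, Real.rpow_one]
  obtain ⟨T, hT⟩ : ∃ T, T = ⌈Y⌉₊ := ⟨_, rfl⟩
  have hYT : Y ≤ T := by
    rw [hT]
    exact Nat.le_ceil Y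
  have hT2 : (T : ℝ) ≤ 2 * Y := by
    have h1 := Nat.ceil_lt_add_one hY0.le
    rw [← hT] at h1
    linarith
  have hT1 : 1 ≤ T := by
    have h1 : (0 : ℝ) < T := by linarith
    exact_mod_cast h1
  obtain ⟨b, hb⟩ : ∃ b, b = N / T + 1 := ⟨_, rfl⟩
  have hNb : N ≤ T * b := by
    rw [hb]
    have h1 := Nat.lt_mul_div_succ N (by omega : 0 < T)
    exact h1.le
  have hYD : Y ≤ Y ^ (D + 1) := by
    calc Y = Y ^ 1 := (pow_one Y).symm
      _ ≤ Y ^ (D + 1) := pow_le_pow_right₀ hY1 (by omega)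
  have hYD1 : 1 ≤ Y ^ (D + 1) := one_le_pow₀ hY1
  have hbY : (b : ℝ) ≤ 2 * Y ^ (D + 1) := by
    have h1 : ((N / T : ℕ) : ℝ) ≤ (N : ℝ) / T := Nat.cast_div_le
    have h2 : (N : ℝ) / T ≤ N / Y := by gcongr
    have h3 : (N : ℝ) / Y = Y ^ (D + 1) := by
      rw [← hYD2, pow_succ]
      field_simp
    rw [hb]
    push_cast
    linarith
  have hlg : Nat.log 2 (2 * (T * 2 ^ b)) ≤ T + b + 1 := by
    have h1 : 2 * (T * 2 ^ b) < 2 ^ (T + b + 1) := by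
      have h2 : T < 2 ^ T := Nat.lt_two_pow_self
      calc 2 * (T * 2 ^ b) < 2 * (2 ^ T * 2 ^ b) := by
            have : 0 < 2 ^ b := by positivity
            exact Nat.mul_lt_mul_of_pos_left (Nat.mul_lt_mul_of_pos_right h2 this) (by norm_num)
        _ = 2 ^ (T + b + 1) := by ring
    have h3 : 2 * (T * 2 ^ b) ≠ 0 := by positivity
    exact (Nat.log_lt_of_lt_pow h3 h1).le
  refine ⟨T, 2 ^ b, hT1, Nat.one_le_two_pow, ?_, ?_⟩
  · refine hnN.trans ?_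
    rw [← pow_mul]
    exact Nat.pow_le_pow_right (by norm_num) (by rw [mul_comm]; exact hNb)
  · have h1 : ((M * Nat.log 2 (2 * (T * 2 ^ b)) + 2 + (2 * T) ^ (D + 1) : ℕ) : ℝ) ≤
        ((M * (T + b + 1) + 2 + (2 * T) ^ (D + 1) : ℕ) : ℝ) := by
      exact_mod_cast Nat.add_le_add_right (Nat.add_le_add_right (Nat.mul_le_mul_left M hlg) 2) _
    refine h1.trans ?_
    push_cast
    have h2 : (M : ℝ) * (T + b + 1) ≤ M * (5 * Y ^ (D + 1)) := by
      gcongr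
      linarith
    have h3 : (2 * (T : ℝ)) ^ (D + 1) ≤ 4 ^ (D + 1) * Y ^ (D + 1) := by
      rw [← mul_pow]
      exact pow_le_pow_left₀ (by positivity) (by linarith) _
    have h4 : Y ^ (D + 1) ≤ 3 * (Real.log n) ^ (1 - 1 / ((D : ℝ) + 2)) := by
      have e0 : 0 ≤ 1 - 1 / ((D : ℝ) + 2) := by
        have : 1 / ((D : ℝ) + 2) ≤ 1 := by
          rw [div_le_one hD2]
          have : (0 : ℝ) ≤ D := Nat.cast_nonneg D
          linarith
        linarith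
      have e1 : Y ^ (D + 1) = (N : ℝ) ^ (1 - 1 / ((D : ℝ) + 2)) := by
        rw [hY, ← Real.rpow_natCast, ← Real.rpow_mul (by linarith)]
        congr 1
        push_cast
        field_simp
        ring
      rw [e1]
      calc (N : ℝ) ^ (1 - 1 / ((D : ℝ) + 2))
          ≤ (3 * Real.log n) ^ (1 - 1 / ((D : ℝ) + 2)) :=
            Real.rpow_le_rpow (by linarith) hNlog e0
        _ = (3 : ℝ) ^ (1 - 1 / ((D : ℝ) + 2)) * (Real.log n) ^ (1 - 1 / ((D : ℝ) + 2)) :=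
            Real.mul_rpow (by norm_num) (by linarith)
        _ ≤ (3 : ℝ) ^ (1 : ℝ) * (Real.log n) ^ (1 - 1 / ((D : ℝ) + 2)) := by
            gcongr
            · norm_num
            · have : 0 < 1 / ((D : ℝ) + 2) := by positivity
              linarith
        _ = _ := by rw [Real.rpow_one]
    calc (M : ℝ) * (T + b + 1) + 2 + (2 * (T : ℝ)) ^ (D + 1)
        ≤ M * (5 * Y ^ (D + 1)) + 2 * Y ^ (D + 1) + 4 ^ (D + 1) * Y ^ (D + 1) := by linarith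
      _ = (5 * M + 2 + 4 ^ (D + 1)) * Y ^ (D + 1) := by ring
      _ ≤ (5 * M + 2 + 4 ^ (D + 1)) * (3 * (Real.log n) ^ (1 - 1 / ((D : ℝ) + 2))) := by
          gcongr
      _ = _ := by ring

end Pool.Agent.H35.SH
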